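import Pool.Agent.H577.FD.Stm
import Pool.Agent.H577.GS.Ratio

/-!
Task STAR of the project FD of helper577: vanishing sums of monomials in `S`-units, ultrafilter form.
-/

set_option autoImplicit false

namespace Pool.Agent.H47.FD577

open Pool.Agent.H577.FD Pool.Agent.H577.GS
open NumberField Filter
open Pool.Agent.Helper259.AbsHt Pool.Agent.Y215.SK

/-- Vanishing sums of elements of a finitely generated group: two terms have a ratio from a finite
set. -/
theorem ratiosG (K : Type) [Field K] [NumberField K] (G : Subgroup Kˣ) (hG : G.FG) {ι : Type}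
    [Fintype ι] [DecidableEq ι] [Nonempty ι] (c : ι → K) (hc : ∀ i, c i ≠ 0) :
    ∃ R : Finset K, ∀ x : ι → Kˣ, (∀ i, x i ∈ G) → ∑ i, c i * (x i : K) = 0 →
      ∃ i j, i ≠ j ∧ (x i : K) / x j ∈ R := by
  classical
  have hφ : Nonempty (K →ₐ[ℚ] Qbar) := ⟨IsAlgClosed.lift⟩
  obtain ⟨φ⟩ := hφ
  have hinj : Function.Injective φ := φ.injective
  set Γ : Subgroup Qbarˣ := G.map (Units.map (φ : K →* Qbar)) with hΓ
  have hΓfg : Γ.FG := map_fg _ hG _
  -- for every nonempty set of indices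
  have key : ∀ J : Finset ι, J.Nonempty → ∃ R : Finset K, ∀ x : ι → Kˣ, (∀ i, x i ∈ G) →
      ∑ i ∈ J, c i * (x i : K) = 0 →
      (∀ I ⊆ J, I.Nonempty → ∑ i ∈ I, c i * (x i : K) = 0 → I = J) →
      ∀ i ∈ J, ∀ j ∈ J, (x i : K) / x j ∈ R := by
    intro J hJ
    obtain ⟨n, hn⟩ : ∃ n, J.card = n + 1 := ⟨J.card - 1, by
      have := Finset.card_pos.2 hJ
      omega⟩
    let e : Fin (n + 1) ≃ J := (Finset.equivFinOfCardEq hn).symm
    obtain ⟨M, hM⟩ := Pool.Agent.RAC963.KS.sols Γ hΓfg n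
    obtain ⟨B, hB1, hB⟩ : ∃ B : ℝ, 1 ≤ B ∧ ∀ j : Fin (n + 1), h1 (φ (c (e j))) ≤ B := by
      refine ⟨1 + ∑ j, |h1 (φ (c (e j)))|, ?_, ?_⟩
      · have : 0 ≤ ∑ j, |h1 (φ (c (e j)))| := Finset.sum_nonneg fun _ _ => abs_nonneg _
        linarith
      · intro j
        have h2 : |h1 (φ (c (e j)))| ≤ ∑ j, |h1 (φ (c (e j)))| :=
          Finset.single_le_sum (f := fun j => |h1 (φ (c (e j)))|) (fun _ _ => abs_nonneg _)
            (Finset.mem_univ j)
        have h3 := le_abs_self (h1 (φ (c (e j))))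
        linarith
    obtain ⟨R, -, -, hR⟩ := hM B hB1 (fun j => φ (c (e j)))
      (fun j => by
        rw [Ne, map_eq_zero_iff φ hinj]
        exact hc _) hB
    refine ⟨R.preimage φ (hinj.injOn), fun x hx hsum hmin i hi j hj => ?_⟩
    rw [Finset.mem_preimage, map_div₀]
    have h4 := hR (fun j => Units.map (φ : K →* Qbar) (x (e j))) (fun j => ⟨1, one_pos, by
      rw [pow_one]
      exact ⟨x (e j), hx _, rfl⟩⟩) (by
        have h5 : ∑ j : Fin (n + 1), φ (c (e j)) * φ (x (e j)) =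
            φ (∑ i ∈ J, c i * (x i : K)) := by
          rw [map_sum, ← Finset.sum_coe_sort J (fun i => φ (c i * (x i : K)))]
          rw [← Equiv.sum_comp e]
          exact Finset.sum_congr rfl fun j _ => by rw [map_mul]
        rw [hsum, map_zero] at h5
        exact h5) (by
        intro I hI hI0
        have h6 : ∑ i ∈ I.image (fun j => ((e j : J) : ι)), c i * (x i : K) = 0 := by
          apply hinj
          rw [map_sum, map_zero, Finset.sum_image]
          · rw [← hI0]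
            exact Finset.sum_congr rfl fun j _ => by rw [map_mul]; rfl
          · intro a _ b _ hab
            exact e.injective (Subtype.ext hab)
        have h7 := hmin (I.image (fun j => ((e j : J) : ι))) (by
          intro a ha
          rw [Finset.mem_image] at ha
          obtain ⟨j, -, rfl⟩ := ha
          exact (e j).2) (hI.image _) h6
        rw [Finset.eq_univ_iff_forall]
        intro j
        have h8 : ((e j : J) : ι) ∈ I.image (fun j => ((e j : J) : ι)) := by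
          rw [h7]
          exact (e j).2
        rw [Finset.mem_image] at h8
        obtain ⟨j', hj', h9⟩ := h8
        have h10 : j' = j := e.injective (Subtype.ext h9)
        rwa [h10] at hj') (e.symm ⟨i, hi⟩) (e.symm ⟨j, hj⟩)
    simpa using h4
  choose! R hR using key
  refine ⟨(Finset.univ : Finset (Finset ι)).biUnion R, fun x hx hsum => ?_⟩
  -- a minimal vanishing subsum
  have hex : ∃ J : Finset ι, J.Nonempty ∧ ∑ i ∈ J, c i * (x i : K) = 0 :=
    ⟨Finset.univ, Finset.univ_nonempty, hsum⟩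
  obtain ⟨J, ⟨hJ1, hJ2⟩, hJ3⟩ : ∃ J : Finset ι, (J.Nonempty ∧ ∑ i ∈ J, c i * (x i : K) = 0) ∧
      ∀ I : Finset ι, (I.Nonempty ∧ ∑ i ∈ I, c i * (x i : K) = 0) → J.card ≤ I.card := by
    obtain ⟨J, hJ, hmin⟩ := (Finset.univ.filter (fun J : Finset ι =>
      J.Nonempty ∧ ∑ i ∈ J, c i * (x i : K) = 0)).exists_min_image Finset.card
      (by
        obtain ⟨J, hJ⟩ := hex
        exact ⟨J, by simpa using hJ⟩)
    refine ⟨J, by simpa using hJ, fun I hI => hmin I (by simpa using hI)⟩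
  have h1 := hR J hJ1 x hx hJ2 (fun I hIJ hI1 hI2 =>
    Finset.eq_of_subset_of_card_le hIJ (hJ3 I ⟨hI1, hI2⟩))
  have h2 : 1 < J.card := by
    by_contra h3
    have h4 : J.card = 1 := by
      have := Finset.card_pos.2 hJ1
      omega
    obtain ⟨i, rfl⟩ := Finset.card_eq_one.1 h4
    rw [Finset.sum_singleton] at hJ2
    rcases mul_eq_zero.1 hJ2 with h5 | h5
    · exact hc i h5
    · exact (x i).ne_zero h5
  obtain ⟨i, hi, j, hj, hij⟩ := Finset.one_lt_card.1 h2
  exact ⟨i, j, hij, Finset.mem_biUnion.2 ⟨J, Finset.mem_univ _, h1 i hi j hj⟩⟩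

/-- The `S`-units are in a finitely generated group. -/
theorem exists_group (S : Finset ℕ) : ∃ G : Subgroup ℚˣ, G.FG ∧
    ∀ m : ℕ, IsSUnit S m → ∃ g ∈ G, ((g : ℚˣ) : ℚ) = m := by
  classical
  refine ⟨Subgroup.closure ((S.image fun p : ℕ => if h : ((p : ℚ) ≠ 0) then Units.mk0 (p : ℚ) h
    else 1 : Finset ℚˣ) : Set ℚˣ), ⟨_, rfl⟩, ?_⟩
  intro m
  induction m using Nat.strong_induction_on with
  | _ m ih =>
    rintro ⟨hm0, hm⟩
    rcases (show 1 ≤ m from hm0).eq_or_lt with h1 | h1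
    · refine ⟨1, Subgroup.one_mem _, ?_⟩
      rw [← h1, Units.val_one, Nat.cast_one]
    · have hp : m.minFac.Prime := Nat.minFac_prime h1.ne'
      obtain ⟨m', hm'⟩ := m.minFac_dvd
      have hm'0 : 0 < m' := by
        rcases Nat.eq_zero_or_pos m' with h | h
        · rw [h, mul_zero] at hm'
          omega
        · exact h
      have hlt : m' < m := by
        have := hp.two_le
        rw [hm']
        nlinarith
      obtain ⟨g, hg, hgm⟩ := ih m' hlt ⟨hm'0, fun p hp1 hp2 => hm p hp1 (by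
        rw [hm']
        exact Dvd.dvd.mul_left hp2 _)⟩
      have hp0 : ((m.minFac : ℕ) : ℚ) ≠ 0 := by
        exact_mod_cast hp.ne_zero
      refine ⟨Units.mk0 (m.minFac : ℚ) hp0 * g, Subgroup.mul_mem _ (Subgroup.subset_closure ?_) hg,
        ?_⟩
      · rw [Finset.mem_coe, Finset.mem_image]
        refine ⟨m.minFac, hm _ hp m.minFac_dvd, ?_⟩
        rw [dif_pos hp0]
      · rw [Units.val_mul, Units.val_mk0, hgm]
        exact_mod_cast hm'.symm

/-- The values of the monomials are in a finitely generated group. -/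
theorem mon_mem {S : Finset ℕ} {G : Subgroup ℚˣ}
    (hG : ∀ m : ℕ, IsSUnit S m → ∃ g ∈ G, ((g : ℚˣ) : ℚ) = m) {σ : Type} [Fintype σ]
    {u : ℕ → σ → ℕ} (hu : ∀ k j, IsSUnit S (u k j)) (m : σ →₀ ℕ) (k : ℕ) :
    ∃ g ∈ G, ((g : ℚˣ) : ℚ) = mon u m k := by
  choose g hg hgu using fun j => hG (u k j) (hu k j)
  refine ⟨∏ j, g j ^ m j, Subgroup.prod_mem _ fun j _ => Subgroup.pow_mem _ (hg j) _, ?_⟩
  unfold mon
  rw [Units.coe_prod]
  refine Finset.prod_congr rfl fun j _ => ?_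
  rw [Units.val_pow_eq_pow_val, hgu]

theorem star : S_STAR := by
  classical
  intro S σ _ u hu F c hF hc hsum
  obtain ⟨G, hGf, hG⟩ := exists_group S
  have hne : Nonempty F := hF.to_subtype
  obtain ⟨R, hR⟩ := ratiosG ℚ G hGf (fun m : F => c m.1) fun m => hc m.1 m.2
  choose g hg hgm using fun (m : σ →₀ ℕ) (k : ℕ) => mon_mem hG hu m k
  have h1 : ∀ᶠ k in (hyperfilter ℕ : Filter ℕ),
      ∃ t ∈ (((F ×ˢ F) ×ˢ R : Finset (((σ →₀ ℕ) × (σ →₀ ℕ)) × ℚ)) :
        Set (((σ →₀ ℕ) × (σ →₀ ℕ)) × ℚ)),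
      t.1.1 ≠ t.1.2 ∧ mon u t.1.1 k = t.2 * mon u t.1.2 k := by
    filter_upwards [hsum] with k hk
    obtain ⟨i, j, hij, hr⟩ := hR (fun m => g m.1 k) (fun m => hg m.1 k) (by
      rw [← hk, ← Finset.sum_coe_sort F]
      refine Finset.sum_congr rfl fun m _ => ?_
      rw [hgm])
    refine ⟨((i.1, j.1), (g i.1 k : ℚ) / g j.1 k), ?_, fun h => hij (Subtype.ext h), ?_⟩
    · rw [Finset.mem_coe, Finset.mem_product, Finset.mem_product]
      exact ⟨⟨i.2, j.2⟩, hr⟩
    · rw [← hgm, ← hgm, div_mul_cancel₀ _ (g j.1 k).ne_zero]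
  rw [Ultrafilter.eventually_exists_mem_iff (Finset.finite_toSet _)] at h1
  obtain ⟨t, ht, h2⟩ := h1
  rw [Finset.mem_coe, Finset.mem_product, Finset.mem_product] at ht
  obtain ⟨k, hk⟩ := h2.exists
  exact ⟨t.1.1, ht.1.1, t.1.2, ht.1.2, hk.1, t.2, h2.mono fun k hk => hk.2⟩

end Pool.Agent.H47.FD577
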